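import Mathlib
import Pool.Agent.H17.TMGrowth

set_option autoImplicit false

namespace Pool.Agent.Results.MP_e68cb8_nt.Refinement

def t (n : ℕ) : ℤ := (-1) ^ (Nat.digits 2 n).sum

def h : ℕ → ℤ
  | 0 => 0
  | 1 => 1
  | (n + 2) => t (n + 2) * h (n + 1) + h n

noncomputable def rho (n : ℕ) : ℝ := |(h n : ℝ)| / |(h (n - 1) : ℝ)|

noncomputable def C (k i : ℕ) : ℝ :=
  Filter.liminf (fun n : ℕ => rho (2 ^ k * n + i + 1)) Filter.atTop

theorem result : 2 / 7 < C 1 0 ∧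
    ∃ n : ℕ, 4 ≤ 2 ^ 1 * n + 0 ∧ rho (2 ^ 1 * n + 0 + 1) < C 1 0 := by
  unfold C rho
  have e : h = Pool.Agent.H17.TMFib.h := by
    funext n
    induction n using Nat.twoStepInduction with
    | zero => rfl
    | one => rfl
    | more n h1 h2 => rw [h, Pool.Agent.H17.TMFib.h, h1, h2]; rfl
  rw [e]
  have key : ∀ n : ℕ, 32 ≤ n → (0.29 : ℝ) ≤ |(Pool.Agent.H17.TMFib.h n : ℝ)| /
      |(Pool.Agent.H17.TMFib.h (n - 1) : ℝ)| ∧ |(Pool.Agent.H17.TMFib.h n : ℝ)| /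
      |(Pool.Agent.H17.TMFib.h (n - 1) : ℝ)| ≤ 5 := by
    intro n hn
    obtain ⟨-, h2, h3⟩ := Pool.Agent.H17.TMFib.ratio n hn
    have p : (0 : ℝ) < |(Pool.Agent.H17.TMFib.h (n - 1) : ℝ)| := by
      exact_mod_cast Pool.Agent.H17.TMGrowth.h_pos (n - 1) (by omega)
    have h4 : (29 : ℝ) * |(Pool.Agent.H17.TMFib.h (n - 1) : ℝ)| ≤
        100 * |(Pool.Agent.H17.TMFib.h n : ℝ)| := by exact_mod_cast h2
    have h5 : |(Pool.Agent.H17.TMFib.h n : ℝ)| ≤
        5 * |(Pool.Agent.H17.TMFib.h (n - 1) : ℝ)| := by exact_mod_cast h3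
    rw [le_div_iff₀ p, div_le_iff₀ p]
    constructor <;> linarith
  have h1 : (0.29 : ℝ) ≤ Filter.liminf (fun n : ℕ =>
      |(Pool.Agent.H17.TMFib.h (2 ^ 1 * n + 0 + 1) : ℝ)| /
      |(Pool.Agent.H17.TMFib.h (2 ^ 1 * n + 0 + 1 - 1) : ℝ)|) Filter.atTop := by
    refine Filter.le_liminf_of_le ?_ ?_
    · refine Filter.isCoboundedUnder_ge_of_eventually_le Filter.atTop (x := 5) ?_
      filter_upwards [Filter.eventually_ge_atTop 16] with n hn
      exact (key _ (by omega)).2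
    · filter_upwards [Filter.eventually_ge_atTop 16] with n hn
      exact (key _ (by omega)).1
  have e14 : Pool.Agent.H17.TMFib.h 14 = -7 := by decide +kernel
  have e15 : Pool.Agent.H17.TMFib.h 15 = -2 := by decide +kernel
  refine ⟨by linarith, 7, by norm_num, lt_of_lt_of_le ?_ h1⟩
  norm_num [e14, e15]

end Pool.Agent.Results.MP_e68cb8_nt.Refinement
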