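import Mathlib
import Pool.Agent.H17.TMFib

set_option autoImplicit false

namespace Pool.Agent.Results.MP_e68cb8_nt.TwoSevenths

def t (n : ℕ) : ℤ := (-1) ^ (Nat.digits 2 n).sum

def h : ℕ → ℤ
  | 0 => 0
  | 1 => 1
  | (n + 2) => t (n + 2) * h (n + 1) + h n

theorem result (n : ℕ) (hn : 4 ≤ n) : (2 / 7 : ℚ) * |(h (n - 1) : ℚ)| ≤ |(h n : ℚ)| := by
  have e : h = Pool.Agent.H17.TMFib.h := by
    funext n
    induction n using Nat.twoStepInduction with
    | zero => rfl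
    | one => rfl
    | more n h1 h2 => rw [h, Pool.Agent.H17.TMFib.h, h1, h2]; rfl
  rw [e]
  have h1 : (2 : ℚ) * |(Pool.Agent.H17.TMFib.h (n - 1) : ℚ)| ≤
      7 * |(Pool.Agent.H17.TMFib.h n : ℚ)| := by
    exact_mod_cast Pool.Agent.H17.TMFib.Q27 n hn
  linarith

end Pool.Agent.Results.MP_e68cb8_nt.TwoSevenths
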